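import Pool.Agent.R884.SP.Core
import Pool.Agent.Results.MP_0ec542_nt.ChenIndexShifts

/-!
# Primes `q` with `2 n - q` a product of at most two primes and `p_{q+2} + h` almost prime, for all but a power of the
logarithm of the shifts `h`

`Chen n` is the set of the primes `q < 2 n` such that `2 n - q` is a product of at most two primes; `p_{q+2}` is
`Nat.nth Nat.Prime (q + 1)`; `Rep x ε b`: `b ≠ 0` and `|b| = m s`, all prime factors of `m` are `< x ^ ε`, and `s` has at most two
prime factors (with multiplicity), all `> x ^ (1 / 7)`.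

For every large `n` and all but at most `C log ^ 3 n` of the integers `h`, `|h| ≤ n`, there are at least `c n / log ^ 2 n` primes
`q ∈ Chen n` such that `p_{q+2} + h` is an almost prime in this sense; so there is such a shift `h` in every interval of
`C log ^ 3 n + 1` integers in `[-n, n]`. The same for every dense set `Q` of indices `q < 2 n` in place of `Chen n`.
-/

set_option autoImplicit false

open Finset

namespace Pool.Agent.Results.MP_0ec542_nt.ChenAllButPolylogShifts

open Pool.Agent.R884.SP
open ChenIndexShifts (Chen chen_low nth_inj)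

open Classical in
/-- the `q ∈ Q` such that `p_{q+2} + h` is almost prime: `Rep n ε (p_{q+2} + h)` -/
noncomputable def Good (n : ℕ) (ε : ℝ) (Q : Finset ℕ) (h : ℤ) : Finset ℕ :=
  Q.filter (fun q => Rep n ε ((Nat.nth Nat.Prime (q + 1) : ℤ) + h))

open Classical in
/-- For every `ε > 0` there are `c > 0` and `C` such that (1) for every `A`, all large `n` and every set `Q` of at least
`n / log ^ A n` integers `q < 2 n`, all but at most `C n log n / #Q` of the integers `h` with `|h| ≤ n` have at least `c #Q`
elements `q ∈ Q` with `Rep n ε (p_{q+2} + h)`; (2) for all large `n` there are at least `c n / log ^ 2 n` elements in `Chen n`, and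
all but at most `C log ^ 3 n` of the integers `h` with `|h| ≤ n` have at least `c n / log ^ 2 n` elements `q ∈ Chen n` with
`Rep n ε (p_{q+2} + h)`. -/
theorem result (ε : ℝ) (hε : 0 < ε) : ∃ c C : ℝ, 0 < c ∧
    (∀ A : ℕ, ∃ n₀ : ℕ, ∀ n : ℕ, n₀ ≤ n → ∀ Q : Finset ℕ, Q ⊆ range (2 * n) →
      (n : ℝ) ≤ Q.card * Real.log n ^ A →
      (((Icc (-(n : ℤ)) n).filter (fun h : ℤ => ((Good n ε Q h).card : ℝ) < c * Q.card)).card : ℝ) ≤
        C * (n * Real.log n / Q.card)) ∧
    (∃ n₀ : ℕ, ∀ n : ℕ, n₀ ≤ n → c * n / Real.log n ^ 2 ≤ ((Chen n).card : ℝ) ∧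
      (((Icc (-(n : ℤ)) n).filter (fun h : ℤ =>
        ((Good n ε (Chen n) h).card : ℝ) < c * n / Real.log n ^ 2)).card : ℝ) ≤
        C * Real.log n ^ 3) := by
  obtain ⟨c, C, hc, hC, H⟩ := core ε hε
  obtain ⟨d, hd, n1, hn1⟩ := chen_low
  obtain ⟨n2, hn2⟩ := Pool.Agent.Y877.SX.nth_le_log
  have part1 : ∀ A : ℕ, ∃ n₀ : ℕ, ∀ n : ℕ, n₀ ≤ n → ∀ Q : Finset ℕ, Q ⊆ range (2 * n) →
      (n : ℝ) ≤ Q.card * Real.log n ^ A →
      (((Icc (-(n : ℤ)) n).filter (fun h : ℤ => ((Good n ε Q h).card : ℝ) < c * Q.card)).card : ℝ) ≤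
        C * (n * Real.log n / Q.card) := by
    intro A
    obtain ⟨n3, hn3⟩ := H A 2
    refine ⟨max n2 (max n3 3), fun n hn Q hQ hQc => ?_⟩
    have b2 : n2 ≤ n := (le_max_left _ _).trans hn
    have b3 : n3 ≤ n := ((le_max_left _ _).trans (le_max_right _ _)).trans hn
    have b4 : 3 ≤ n := ((le_max_right _ _).trans (le_max_right _ _)).trans hn
    have h1 := hn3 n b3 Q hQc (fun q => Nat.nth Nat.Prime (q + 1))
      (fun a _ b _ hab => by
        have := nth_inj hab
        omega)
      (fun q hq => ⟨Nat.prime_nth_prime _, hn2 n b2 (q + 1) (by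
        have := mem_range.1 (hQ hq)
        omega)⟩)
    have hL : 0 < Real.log n := Real.log_pos (by
      have : (3 : ℝ) ≤ n := by exact_mod_cast b4
      linarith)
    refine h1.trans (le_of_eq ?_)
    rcases Nat.eq_zero_or_pos Q.card with h0 | h0
    · simp [h0]
    · have : (0 : ℝ) < Q.card := by exact_mod_cast h0
      field_simp
  refine ⟨min (c * d) (min c d), max C (C / d), by positivity, ?_, ?_⟩
  · intro A
    obtain ⟨n₀, hn₀⟩ := part1 A
    refine ⟨n₀, fun n hn Q hQ hQc => ?_⟩
    have h1 := hn₀ n hn Q hQ hQc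
    have h2 : ((Icc (-(n : ℤ)) n).filter (fun h : ℤ =>
        ((Good n ε Q h).card : ℝ) < min (c * d) (min c d) * Q.card)).card ≤
        ((Icc (-(n : ℤ)) n).filter (fun h : ℤ => ((Good n ε Q h).card : ℝ) < c * Q.card)).card := by
      apply card_le_card
      intro h hh
      rw [mem_filter] at hh ⊢
      refine ⟨hh.1, hh.2.trans_le ?_⟩
      exact mul_le_mul_of_nonneg_right ((min_le_right _ _).trans (min_le_left _ _)) (Nat.cast_nonneg _)
    refine (by exact_mod_cast h2 : _ ≤ (_ : ℝ)).trans (h1.trans ?_)
    apply mul_le_mul_of_nonneg_right (le_max_left _ _)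
    have : 0 ≤ Real.log n := Real.log_natCast_nonneg n
    positivity
  · obtain ⟨n3, hn3⟩ := part1 3
    obtain ⟨n4, hn4⟩ := Pool.Agent.H373R2.T7.ev_L' (max 1 (1 / d))
    refine ⟨max (max n1 n3) (max n4 1), fun n hn => ?_⟩
    have b1 : n1 ≤ n := le_trans (le_trans (le_max_left _ _) (le_max_left _ _)) hn
    have b3 : n3 ≤ n := le_trans (le_trans (le_max_right _ _) (le_max_left _ _)) hn
    have b4 : n4 ≤ n := le_trans (le_trans (le_max_left _ _) (le_max_right _ _)) hn
    have b5 : 1 ≤ n := le_trans (le_trans (le_max_right _ _) (le_max_right _ _)) hn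
    have hL := hn4 n b4
    have hL1 : 1 ≤ Real.log n := (le_max_left _ _).trans hL
    have hL2 : 1 / d ≤ Real.log n := (le_max_right _ _).trans hL
    have hL0 : 0 < Real.log n := by linarith
    have hn0 : (0 : ℝ) < n := by exact_mod_cast b5
    have hlow := hn1 n b1
    have hlow' : d * n ≤ (Chen n).card * Real.log n ^ 2 := by
      rwa [div_le_iff₀ (by positivity)] at hlow
    have hsize : (n : ℝ) ≤ (Chen n).card * Real.log n ^ 3 := by
      rw [div_le_iff₀ hd] at hL2
      calc (n : ℝ) = n * 1 := by ring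
        _ ≤ n * (Real.log n * d) := mul_le_mul_of_nonneg_left hL2 hn0.le
        _ = (d * n) * Real.log n := by ring
        _ ≤ ((Chen n).card * Real.log n ^ 2) * Real.log n := mul_le_mul_of_nonneg_right hlow' hL0.le
        _ = _ := by ring
    have hcard0 : (0 : ℝ) < (Chen n).card := by
      have : (0 : ℝ) < d * n / Real.log n ^ 2 := by positivity
      linarith
    refine ⟨le_trans ?_ hlow, ?_⟩
    · apply div_le_div_of_nonneg_right _ (by positivity)
      exact mul_le_mul_of_nonneg_right ((min_le_right _ _).trans (min_le_right _ _)) hn0.le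
    · have h1 := hn3 n b3 (Chen n) (by
        unfold Chen
        exact filter_subset _ _) hsize
      have h2 : ((Icc (-(n : ℤ)) n).filter (fun h : ℤ =>
          ((Good n ε (Chen n) h).card : ℝ) < min (c * d) (min c d) * n / Real.log n ^ 2)).card ≤
          ((Icc (-(n : ℤ)) n).filter (fun h : ℤ =>
            ((Good n ε (Chen n) h).card : ℝ) < c * (Chen n).card)).card := by
        apply card_le_card
        intro h hh
        rw [mem_filter] at hh ⊢
        refine ⟨hh.1, hh.2.trans_le ?_⟩
        calc min (c * d) (min c d) * n / Real.log n ^ 2 ≤ (c * d) * n / Real.log n ^ 2 := by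
              apply div_le_div_of_nonneg_right _ (by positivity)
              exact mul_le_mul_of_nonneg_right (min_le_left _ _) hn0.le
          _ = c * (d * n / Real.log n ^ 2) := by ring
          _ ≤ c * (Chen n).card := mul_le_mul_of_nonneg_left hlow hc.le
      refine (by exact_mod_cast h2 : _ ≤ (_ : ℝ)).trans (h1.trans ?_)
      have h3 : (n : ℝ) * Real.log n / (Chen n).card ≤ (1 / d) * Real.log n ^ 3 := by
        rw [div_le_iff₀ hcard0]
        calc (n : ℝ) * Real.log n = (1 / d) * Real.log n * (d * n) := by field_simp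
          _ ≤ (1 / d) * Real.log n * ((Chen n).card * Real.log n ^ 2) :=
              mul_le_mul_of_nonneg_left hlow' (by positivity)
          _ = (1 / d) * Real.log n ^ 3 * (Chen n).card := by ring
      calc C * (n * Real.log n / (Chen n).card) ≤ C * ((1 / d) * Real.log n ^ 3) :=
            mul_le_mul_of_nonneg_left h3 hC
        _ = (C / d) * Real.log n ^ 3 := by ring
        _ ≤ max C (C / d) * Real.log n ^ 3 :=
            mul_le_mul_of_nonneg_right (le_max_right _ _) (by positivity)

end Pool.Agent.Results.MP_0ec542_nt.ChenAllButPolylogShifts
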