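import Pool.Agent.R518.C.Ind

set_option autoImplicit false

/-!
# For every large `n` many `q < 2 n` with `q`, `2 n - q` free of small prime factors and almost prime
`p_{q + 2} + 2`
-/

namespace Pool.Agent.Results.MP_0ec542_nt.IndexClasses

open Finset Filter

/-- The `k`-th prime: `p 1 = 2`, `p 2 = 3`, and so on. -/
noncomputable def p (k : ℕ) : ℕ := Nat.nth Nat.Prime (k - 1)

open Classical in
/-- The `q ≥ 1` such that each of the numbers `q' = q, q + u, ..., q + l u` satisfies: `q' < 2 n`, `q'` and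
`2 n - q'` are prime to `u`, and `p_{q' + 2} + 2` has at most `R` prime factors, counted with multiplicity. -/
noncomputable def Good (u l R n : ℕ) : Finset ℕ :=
  (range (2 * n)).filter (fun q => 1 ≤ q ∧ ∀ i ≤ l, q + i * u < 2 * n ∧ (q + i * u).Coprime u ∧
    (2 * n - (q + i * u)).Coprime u ∧ (p (q + i * u + 2) + 2).primeFactorsList.length ≤ R)

/-- the product of the primes which divide `u` but not `n` -/
def P (u n : ℕ) : ℕ := ∏ r ∈ u.primeFactors.filter (fun r => ¬ r ∣ n), r

theorem dvd_P {u n r : ℕ} (hr : r.Prime) (h : r ∣ P u n) : ¬ r ∣ n := by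
  unfold P at h
  rw [Prime.dvd_finsetProd_iff hr.prime] at h
  obtain ⟨s, hs, hrs⟩ := h
  rw [mem_filter] at hs
  have hsp := Nat.prime_of_mem_primeFactors hs.1
  rw [(Nat.prime_dvd_prime_iff_eq hr hsp).1 hrs]
  exact hs.2

theorem P_dvd {u n r : ℕ} (hu : u ≠ 0) (hr : r.Prime) (hru : r ∣ u) (hrn : ¬ r ∣ n) : r ∣ P u n := by
  unfold P
  apply dvd_prod_of_mem (fun r => r)
  rw [mem_filter]
  exact ⟨Nat.mem_primeFactors.2 ⟨hr, hru, hu⟩, hrn⟩

/-- `n + P` and `n - P` are prime to `u` -/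
theorem ndvd {u n r : ℕ} (hu : u ≠ 0) (hr : r.Prime) (hru : r ∣ u) :
    ¬ (r : ℤ) ∣ (n : ℤ) + P u n ∧ ¬ (r : ℤ) ∣ (n : ℤ) - P u n := by
  by_cases hrn : r ∣ n
  · have h1 : (r : ℤ) ∣ (n : ℤ) := by exact_mod_cast hrn
    have h2 : ¬ (r : ℤ) ∣ (P u n : ℤ) := by
      intro h
      exact dvd_P hr (by exact_mod_cast h) hrn
    constructor
    · intro h
      exact h2 ((dvd_add_right h1).1 h)
    · intro h
      exact h2 ((dvd_sub_right h1).1 h)
  · have h1 : ¬ (r : ℤ) ∣ (n : ℤ) := by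
      intro h
      exact hrn (by exact_mod_cast h)
    have h2 : (r : ℤ) ∣ (P u n : ℤ) := by exact_mod_cast P_dvd hu hr hru hrn
    constructor
    · intro h
      exact h1 ((dvd_add_left h2).1 h)
    · intro h
      exact h1 ((dvd_sub_left h2).1 h)

theorem cop {u n m : ℕ} (hu : u ≠ 0) (hm : m < 2 * n) (h : m ≡ n + P u n [MOD u]) :
    m.Coprime u ∧ (2 * n - m).Coprime u := by
  have h0 : (u : ℤ) ∣ ((n + P u n : ℕ) : ℤ) - m := (Nat.modEq_iff_dvd.1 h)
  push_cast at h0
  constructor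
  · rw [Nat.coprime_iff_gcd_eq_one]
    by_contra hcon
    obtain ⟨r, hr, hrd⟩ := Nat.exists_prime_and_dvd hcon
    have h1 : r ∣ m := hrd.trans (Nat.gcd_dvd_left _ _)
    have h2 : r ∣ u := hrd.trans (Nat.gcd_dvd_right _ _)
    have h3 : (r : ℤ) ∣ (n : ℤ) + P u n - m := (by exact_mod_cast h2 : (r : ℤ) ∣ (u : ℤ)).trans h0
    have h4 : (r : ℤ) ∣ (m : ℤ) := by exact_mod_cast h1
    exact (ndvd hu hr h2).1 ((dvd_sub_left h4).1 h3)
  · rw [Nat.coprime_iff_gcd_eq_one]
    by_contra hcon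
    obtain ⟨r, hr, hrd⟩ := Nat.exists_prime_and_dvd hcon
    have h1 : r ∣ 2 * n - m := hrd.trans (Nat.gcd_dvd_left _ _)
    have h2 : r ∣ u := hrd.trans (Nat.gcd_dvd_right _ _)
    have h3 : (r : ℤ) ∣ (n : ℤ) + P u n - m := (by exact_mod_cast h2 : (r : ℤ) ∣ (u : ℤ)).trans h0
    have h4 : (r : ℤ) ∣ ((2 * n - m : ℕ) : ℤ) := by exact_mod_cast h1
    rw [Nat.cast_sub hm.le] at h4
    push_cast at h4
    have h5 := dvd_sub h4 h3
    have e : (2 * (n : ℤ) - m) - ((n : ℤ) + P u n - m) = n - P u n := by ring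
    rw [e] at h5
    exact (ndvd hu hr h2).2 h5

/-- **Every large `n`.** For every `u ≥ 1` (for instance the product of all primes up to a given bound) and every `l`
there are `R` and `D` such that for EVERY large `n` there are at least `n / (log n) ^ D` numbers `q ≥ 1` such that each
of `q' = q, q + u, ..., q + l u` is less than `2 n`, `q'` and `2 n - q'` have no prime factor in common with `u`, and
`p_{q' + 2} + 2` has at most `R` prime factors. -/
theorem result (u l : ℕ) (hu : 1 ≤ u) : ∃ R D : ℕ, ∀ᶠ n : ℕ in atTop,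
    (n : ℝ) / Real.log n ^ D ≤ ((Good u l R n).card : ℝ) := by
  obtain ⟨R, D, x₀, h⟩ := Pool.Agent.R518.C.core u l hu
  refine ⟨R, D, ?_⟩
  filter_upwards [eventually_ge_atTop x₀] with n hn
  refine (h n hn (n + P u n + 2)).trans ?_
  apply Nat.cast_le.2
  apply Finset.card_le_card_of_injOn (fun j => j - 2)
  · intro j hj
    rw [mem_coe] at hj
    unfold Pool.Agent.R518.C.Js at hj
    rw [mem_filter, mem_range] at hj
    obtain ⟨h1, h2, h3, h4⟩ := hj
    unfold Good
    rw [mem_coe, mem_filter, mem_range]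
    beta_reduce
    refine ⟨by omega, by omega, fun i hi => ?_⟩
    obtain ⟨h5, h6⟩ := h4 i hi
    have h7 : j - 2 + i * u < 2 * n := by omega
    have h8 : j - 2 + i * u ≡ n + P u n [MOD u] := by
      have e1 : (j - 2) + 2 ≡ (n + P u n) + 2 [MOD u] := by
        have : j - 2 + 2 = j := by omega
        rw [this]
        exact h3
      have e2 := Nat.ModEq.add_right_cancel' 2 e1
      have e3 : j - 2 + i * u ≡ j - 2 [MOD u] := by
        unfold Nat.ModEq
        rw [Nat.add_mul_mod_self_right]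
      exact e3.trans e2
    obtain ⟨h9, h10⟩ := cop (by omega) h7 h8
    refine ⟨h7, h9, h10, ?_⟩
    unfold p
    have e4 : j - 2 + i * u + 2 - 1 = j + i * u - 1 := by omega
    rw [e4, ← ArithmeticFunction.cardFactors_apply]
    exact h6
  · intro j hj j' hj' hjj
    rw [mem_coe] at hj hj'
    unfold Pool.Agent.R518.C.Js at hj hj'
    rw [mem_filter] at hj hj'
    have h1 := hj.2.1
    have h2 := hj'.2.1
    simp only at hjj
    omega

end Pool.Agent.Results.MP_0ec542_nt.IndexClasses
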