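import Pool.Agent.R502.WD.Gen

/-!
# The least prime summand in Goldbach's problem

The question asks whether every `2 n > 4` is a sum `q + r` of primes such that `p_{q+2} + 2` is prime.
Here we bound the least such `q` (even the least `q` without the condition on `p_{q+2} + 2`) from below:
write `y = λ log X log log X`.

1. For every `λ`, for a positive proportion of the even `N ≤ X` all the primes `q` with `N - q` prime
   are larger than `y`; in particular so are all the `q` of the question.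
2. For every `λ` and almost all `N ≤ X`, a positive proportion of the intervals `(i y, (i + 1) y]`,
   `i < K`, contains no prime `q` with `N - q` prime.

(There are about `λ log X` primes up to `y`, so that a constant `λ` is the right order of magnitude
for this to happen for a positive proportion of the `N`.)
-/

set_option autoImplicit false

open Finset Filter

namespace Pool.Agent.Results.MP_0ec542_nt.LeastSummand

/-- `y = λ log X log log X` -/
noncomputable def y (lam X : ℝ) : ℝ := lam * Real.log X * Real.log (Real.log X)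

/-- `N = q + r` is a representation as in the question: `q`, `r` and `p_{q+2} + 2` are prime
(`p_k` is `Nat.nth Nat.Prime (k - 1)`). -/
def Rep (N q r : ℕ) : Prop :=
  q.Prime ∧ r.Prime ∧ N = q + r ∧ (Nat.nth Nat.Prime (q + 1) + 2).Prime

open Classical in
/-- **The least prime summand.** -/
theorem result :
    (∀ lam : ℝ, 0 < lam → ∃ δ : ℝ, 0 < δ ∧ ∃ X₀ : ℝ, ∀ X : ℝ, X₀ ≤ X →
      δ * X ≤ (((Icc 1 ⌊X⌋₊).filter (fun N => Even N ∧ ∀ q r : ℕ, q.Prime → r.Prime →
        N = q + r → y lam X < q)).card : ℝ)) ∧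
    (∀ lam : ℝ, 0 < lam → ∃ δ : ℝ, 0 < δ ∧ ∃ X₀ : ℝ, ∀ X : ℝ, X₀ ≤ X →
      δ * X ≤ (((Icc 1 ⌊X⌋₊).filter (fun N => Even N ∧ ∀ q r : ℕ, Rep N q r →
        y lam X < q)).card : ℝ)) ∧
    (∀ lam ε : ℝ, 0 < lam → 0 < ε → ∃ c : ℝ, 0 < c ∧ ∃ K₀ : ℕ, ∀ K : ℕ, K₀ ≤ K →
      ∃ X₀ : ℝ, ∀ X : ℝ, X₀ ≤ X →
      (((Icc 1 ⌊X⌋₊).filter (fun N => (((range K).filter
        (fun i : ℕ => ∀ q r : ℕ, q.Prime → r.Prime → N = q + r →
          ¬ ((i : ℝ) * y lam X < q ∧ (q : ℝ) ≤ (i + 1) * y lam X))).card : ℝ) <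
            c * K)).card : ℝ) ≤ ε * X) := by
  obtain ⟨C, hC, Y₀, hQ⟩ := Pool.Agent.R502.WD.iter_pi 0
  have hQ2 : ∀ y : ℕ, Y₀ ≤ y → (((range (y + 1)).filter Nat.Prime).card : ℝ) ≤
      C * (y / Real.log y ^ 1) := by
    intro y hy
    have h1 := hQ y hy
    simp only [zero_add, Function.iterate_one] at h1
    refine le_trans (le_of_eq ?_) h1
    unfold Nat.primeCounting Nat.primeCounting'
    rw [Nat.count_eq_card_filter_range]
  obtain ⟨g1, g2⟩ := Pool.Agent.R502.WD.gen Nat.Prime 1 C Y₀ (by linarith)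
    (fun y hy => by convert hQ2 y hy)
  have hy : ∀ lam X : ℝ, Pool.Agent.R502.WD.yy 1 lam X = y lam X := by
    intro lam X
    unfold Pool.Agent.R502.WD.yy y
    rw [pow_one]
  simp only [hy] at g1 g2
  refine ⟨g1, ?_, g2⟩
  intro lam hlam
  obtain ⟨δ, hδ, X₀, h⟩ := g1 lam hlam
  refine ⟨δ, hδ, X₀, fun X hX => (h X hX).trans ?_⟩
  apply Nat.cast_le.2
  apply card_le_card
  intro N hN
  rw [mem_filter] at hN ⊢
  exact ⟨hN.1, hN.2.1, fun q r hr => hN.2.2 q r hr.1 hr.2.1 hr.2.2.1⟩

end Pool.Agent.Results.MP_0ec542_nt.LeastSummand
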